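import Mathlib

set_option autoImplicit false

namespace Pool.Agent.Results.MP_5790d7_co.Counter

/-- `A ≤ B`: the chain `A` embeds in the chain `B`. -/
def Emb (A B : Type) [LinearOrder A] [LinearOrder B] : Prop := Nonempty (A ↪o B)

/-- `A < B`: `A` embeds in `B` but `B` does not embed in `A`. -/
def SEmb (A B : Type) [LinearOrder A] [LinearOrder B] : Prop := Emb A B ∧ ¬ Emb B A

/-- `A` is unsecable: for every splitting into an initial interval `B` and the complementary
final interval, `A` embeds in one of the two parts. -/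
def Unsecable (A : Type) [LinearOrder A] : Prop :=
  ∀ B : Set A, IsLowerSet B → Emb A B ∨ Emb A (Bᶜ : Set A)

theorem result : ∃ (A : Type) (_ : LinearOrder A), Countable A ∧
    (∀ X : Set A, IsLowerSet X → SEmb X A → SEmb (X ⊕ₗ X) A) ∧ ¬ Unsecable A := by
  refine ⟨WithBot ℕᵒᵈ, inferInstance, inferInstanceAs (Countable (Option ℕ)), ?_, ?_⟩
  · rintro X hX ⟨_, h2⟩
    have hsub : ∀ x ∈ X, x = ⊥ := by
      intro x hx
      by_contra hne
      obtain ⟨n, rfl⟩ := WithBot.ne_bot_iff_exists.mp hne
      apply h2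
      let g : ℕᵒᵈ → ℕᵒᵈ := fun k => OrderDual.toDual (OrderDual.ofDual k + OrderDual.ofDual n)
      have hg : StrictMono g := by
        intro a b hab
        have : OrderDual.ofDual b < OrderDual.ofDual a := hab
        change OrderDual.ofDual b + OrderDual.ofDual n < OrderDual.ofDual a + OrderDual.ofDual n
        omega
      have hmem : ∀ y : WithBot ℕᵒᵈ, WithBot.map g y ∈ X := by
        intro y
        apply hX _ hx
        induction y using WithBot.recBotCoe with
        | bot => simp
        | coe k =>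
          rw [WithBot.map_coe]
          apply WithBot.coe_le_coe.mpr
          change OrderDual.ofDual n ≤ OrderDual.ofDual k + OrderDual.ofDual n
          omega
      exact ⟨OrderEmbedding.ofStrictMono (fun y => ⟨WithBot.map g y, hmem y⟩)
        (fun a b hab => (WithBot.strictMono_map_iff.mpr hg) hab)⟩
    have hss : Subsingleton X := ⟨fun a b => Subtype.ext ((hsub a a.2).trans (hsub b b.2).symm)⟩
    constructor
    · refine ⟨OrderEmbedding.ofStrictMono
        (fun y => Sum.elim (fun _ => (⊥ : WithBot ℕᵒᵈ))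
          (fun _ => ((OrderDual.toDual 0 : ℕᵒᵈ) : WithBot ℕᵒᵈ)) (ofLex y)) ?_⟩
      rintro (a | a) (b | b) hab
      · have : a < b := Sum.Lex.inl_lt_inl_iff.mp hab
        rw [Subsingleton.elim a b] at this
        exact absurd this (lt_irrefl _)
      · exact WithBot.bot_lt_coe _
      · exact absurd hab Sum.Lex.not_inr_lt_inl
      · have : a < b := Sum.Lex.inr_lt_inr_iff.mp hab
        rw [Subsingleton.elim a b] at this
        exact absurd this (lt_irrefl _)
    · rintro ⟨f⟩
      have : Finite (X ⊕ₗ X) := inferInstanceAs (Finite (X ⊕ X))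
      have h3 : Finite (WithBot ℕᵒᵈ) := Finite.of_injective f f.injective
      have h4 : Infinite (WithBot ℕᵒᵈ) := inferInstanceAs (Infinite (Option ℕ))
      exact not_finite (WithBot ℕᵒᵈ)
  · intro h
    have h4 : Infinite (WithBot ℕᵒᵈ) := inferInstanceAs (Infinite (Option ℕ))
    rcases h {⊥} (fun a b hab ha => le_bot_iff.mp (ha ▸ hab)) with ⟨⟨f⟩⟩ | ⟨⟨f⟩⟩
    · have h3 : Finite (WithBot ℕᵒᵈ) := Finite.of_injective f f.injective
      exact not_finite (WithBot ℕᵒᵈ)
    · obtain ⟨n, hn⟩ := WithBot.ne_bot_iff_exists.mp (f ⊥).2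
      have hfin : (Set.Ici ((n : ℕᵒᵈ) : WithBot ℕᵒᵈ)).Finite := by
        refine ((Set.finite_Iic (OrderDual.ofDual n)).image
          (fun k : ℕ => ((OrderDual.toDual k : ℕᵒᵈ) : WithBot ℕᵒᵈ))).subset ?_
        intro y hy
        induction y using WithBot.recBotCoe with
        | bot => simp at hy
        | coe k => exact ⟨OrderDual.ofDual k, WithBot.coe_le_coe.mp hy, rfl⟩
      have := hfin.to_subtype
      have h3 : Finite (WithBot ℕᵒᵈ) := Finite.of_injective
        (fun y => (⟨(f y).1, by
          rw [Set.mem_Ici, hn]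
          exact f.monotone bot_le⟩ : Set.Ici ((n : ℕᵒᵈ) : WithBot ℕᵒᵈ)))
        (fun a b hab => f.injective (Subtype.ext (by simpa using hab)))
      exact not_finite (WithBot ℕᵒᵈ)

end Pool.Agent.Results.MP_5790d7_co.Counter
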